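import Pool.Agent.MP_fcd29e_an.H11.CS

/-!
Admissible frames over the same point differ by a Lorentz transformation.
-/

set_option autoImplicit false

open Complex Set Filter Topology Metric Pool.Agent.MP_fcd29e_an.H81
open scoped ContDiff ComplexConjugate

namespace Pool.Agent.MP_fcd29e_an.H13

open H11

namespace CXA

variable {r m : ℕ} [NeZero m]

/-- The three clauses in the definition of admissible frames. -/
def Cl (n : ℕ) (c S : ℝ) (om : Fin m → Fin r → ℂ) (F : ℂ → EV (Fin r))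
    (Fr : ℂ → EV (Fin r) → Prop) (fc : Fin m → ℂ × V (Fin r) → ℝ) (fi : ℂ × V (Fin r) → ℝ)
    (fh : ℂ × (Fin r → ℂ) → ℝ) (s : Option (Fin m) → ℂ) (e : V (Fin r) → Bk m → V (Fin r))
    (φ : V (Fin r) → ℝ) : Prop :=
  (∃ (j : Fin m) (G : EV (Fin r)), Op1 G ∧ s none ≠ 0 ∧ ‖(s (some j) / s none) ^ n‖ < 1 / 4 ∧
      (s (some j) ≠ 0 → ∀ x, e x none = ((∏ i, s (some i)) * s none ^ (4 * m)) •
        F ((s (some 0) / s none) ^ n) (rot c S (om j) (s (some j) / s none) (G x))) ∧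
      (s (some j) = 0 → ∀ x, e x (some (some j)) =
        ((∏ i ∈ Finset.univ.erase j, s (some i)) * s none ^ (4 * m + 1)) • G x) ∧
      ∀ x ∈ cone (Fin r), φ x = fc j (s (some j) / s none, G x)) ∨
    (∃ G : EV (Fin r), Op1 G ∧ s (some 0) ≠ 0 ∧ ((m : ℝ) + 2) * ‖(s none / s (some 0)) ^ n‖ < 1 ∧
      (s none ≠ 0 → ∀ x, e x none = ((∏ i, s (some i)) * s none ^ (4 * m)) •
        F ((s (some 0) / s none) ^ n) (dg ((s (some 0) / s none) ^ (4 * m)) (G x))) ∧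
      (s none = 0 → ∀ x, e x (some none) = ((∏ i, s (some i)) * s (some 0) ^ (4 * m)) • G x) ∧
      ∀ x ∈ cone (Fin r), φ x = fi (s none / s (some 0), G x)) ∨
    ∃ M : EV (Fin r), Fr ((s (some 0) / s none) ^ n) M ∧ s none ≠ 0 ∧
      (∀ j : Fin m, 1 / 5 < ‖(s (some 0) / s none) ^ n - tp j‖) ∧
      ‖(s (some 0) / s none) ^ n‖ < m + 3 ∧
      (∀ x, e x none = ((∏ i, s (some i)) * s none ^ (4 * m)) • M x) ∧
      ∀ x ∈ cone (Fin r), φ x = fh ((s (some 0) / s none) ^ n, (M x).2.2)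

variable {n : ℕ} {C c S : ℝ} {om : Fin m → Fin r → ℂ} {F Fi : ℂ → EV (Fin r)}
  {Fr : ℂ → EV (Fin r) → Prop} {fc : Fin m → ℂ × V (Fin r) → ℝ} {fi : ℂ × V (Fin r) → ℝ}
  {fh : ℂ × (Fin r → ℂ) → ℝ} {s : Option (Fin m) → ℂ} {e e' : V (Fin r) → Bk m → V (Fin r)}
  {φ φ' : V (Fin r) → ℝ}

theorem scale {a : ℂ} (ha : a ≠ 0) (h : Cl n c S om F Fr fc fi fh (a • s) e φ) :
    Cl n c S om F Fr fc fi fh s (fun x => (a ^ (5 * m))⁻¹ • e x) φ := by
  have k1 : ∀ z : ℂ, (a ^ (5 * m))⁻¹ * ((∏ i, a * s (some i)) * (a * z) ^ (4 * m)) =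
      (∏ i, s (some i)) * z ^ (4 * m) := fun z => by
    rw [Finset.prod_mul_distrib, Finset.prod_const, Finset.card_univ, Fintype.card_fin, mul_pow,
      show 5 * m = m + 4 * m by ring, pow_add]
    field_simp
  have k2 : ∀ j : Fin m, (a ^ (5 * m))⁻¹ * ((∏ i ∈ Finset.univ.erase j, a * s (some i)) *
      (a * s none) ^ (4 * m + 1)) =
      (∏ i ∈ Finset.univ.erase j, s (some i)) * s none ^ (4 * m + 1) := fun j => by
    have := NeZero.pos m
    rw [Finset.prod_mul_distrib, Finset.prod_const, Finset.card_erase_of_mem (Finset.mem_univ j),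
      Finset.card_univ, Fintype.card_fin, mul_pow, show 5 * m = m - 1 + (4 * m + 1) by omega,
      pow_add a (m - 1)]
    field_simp
  simp only [Cl, Pi.smul_apply, smul_eq_mul, mul_div_mul_left _ _ ha, ne_eq, mul_eq_zero, ha,
    false_or] at h
  rcases h with ⟨j, G, h1, h2, h3, h4, h5, h6⟩ | ⟨G, h1, h2, h3, h4, h5, h6⟩ |
    ⟨M, h1, h2, h3, h4, h5, h6⟩
  · exact .inl ⟨j, G, h1, h2, h3, fun k x => by simp only [Pi.smul_apply, h4 k, smul_smul, k1],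
      fun k x => by simp only [Pi.smul_apply, h5 k, smul_smul, k2], h6⟩
  · exact .inr (.inl ⟨G, h1, h2, h3, fun k x => by simp only [Pi.smul_apply, h4 k, smul_smul, k1],
      fun k x => by simp only [Pi.smul_apply, h5 k, smul_smul, k1], h6⟩)
  · exact .inr (.inr ⟨M, h1, h2, h3, h4,
      fun x => by simp only [Pi.smul_apply, h5, smul_smul, k1], h6⟩)

omit [NeZero m] in
theorem tp_eq {i j : Fin m} (h : ‖(tp i : ℂ) - tp j‖ < 1) : i = j := by
  have e : (tp i : ℂ) - tp j = I * (((i : ℕ) : ℤ) - ((j : ℕ) : ℤ) : ℤ) := by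
    simp only [tp]
    push_cast
    ring
  rw [e, norm_mul, norm_I, one_mul, norm_intCast, ← Int.cast_abs] at h
  have : |((i : ℕ) : ℤ) - ((j : ℕ) : ℤ)| < 1 := by exact_mod_cast h
  exact Fin.ext (by have := abs_lt.1 this; omega)

omit [NeZero m] in
theorem tp_le (j : Fin m) : ‖(tp j : ℂ)‖ ≤ m := by
  rw [tp, norm_mul, norm_I, one_mul, norm_natCast]
  exact_mod_cast j.2.le

omit [NeZero m] in
theorem far_lt {a b : ℂ} (ha : a ≠ 0) (hb : b ≠ 0) (h : ((m : ℝ) + 2) * ‖(a / b) ^ n‖ < 1) :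
    (m : ℝ) + 2 < ‖(b / a) ^ n‖ := by
  rwa [← inv_div, inv_pow, norm_inv, ← div_eq_mul_inv,
    div_lt_one (norm_pos_iff.2 (pow_ne_zero _ (div_ne_zero hb ha)))] at h

theorem same (hGR : SGR) {G G' : EV (Fin r)} (h : Op1 G) (h' : Op1 G') :
    ∃ g, Op1 g ∧ ∀ x, G' (g x) = G x := by
  obtain ⟨-, mul, inv, -⟩ := hGR.op (Fin r)
  obtain ⟨g, g1, g2, -⟩ := inv G' h'
  exact ⟨g * G, mul _ _ g1 h, fun x => congrArg (fun M : EV (Fin r) => M (G x)) g2⟩

theorem tohub (hGR : SGR) (hF : Frames r m n C c S om F Fi Fr)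
    (hP : PhiB r m n c S om F Fr fc fi fh) (h0 : s none ≠ 0) (hj : ∀ j, s (some j) ≠ 0)
    (ht : ∀ j, tp j + (s (some j) / s none) ^ n = (s (some 0) / s none) ^ n)
    (H1 : ∀ j : Fin m, 1 / 5 < ‖(s (some 0) / s none) ^ n - tp j‖)
    (H2 : ‖(s (some 0) / s none) ^ n‖ < m + 3) (h : Cl n c S om F Fr fc fi fh s e φ) :
    ∃ M G : EV (Fin r), Fr ((s (some 0) / s none) ^ n) M ∧ Op1 G ∧
      (∀ x, e x none = ((∏ i, s (some i)) * s none ^ (4 * m)) • M (G x)) ∧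
      ∀ x ∈ cone (Fin r), φ x = fh ((s (some 0) / s none) ^ n, (M (G x)).2.2) := by
  rcases h with ⟨j, G, h1, -, h3, h4, -, h6⟩ | ⟨G, h1, h2, h3, h4, -, h6⟩ | ⟨M, h1, -, -, -, h5, h6⟩
  · have k := hF.cell j _ (div_ne_zero (hj j) h0) (by linarith)
    have k' := hP.ovc j (s (some j) / s none) (by
      rw [← sub_eq_of_eq_add' (ht j).symm]; exact H1 j) h3
    rw [ht j] at k k'
    exact ⟨_, G, k, h1, h4 (hj j), fun x hx => (h6 x hx).trans (k' _ (h1.fut x hx))⟩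
  · have l := far_lt h0 h2 h3
    have k' := hP.ovi _ l H2
    rw [inv_div] at k'
    exact ⟨_, G, hF.far _ (by linarith), h1, h4 h0, fun x hx =>
      (h6 x hx).trans (k' _ (h1.fut x hx))⟩
  · exact ⟨M, 1, h1, (hGR.op _).1, h5, h6⟩

theorem cmp (hGR : SGR) (hn : 1 ≤ n) (hF : Frames r m n C c S om F Fi Fr)
    (hP : PhiB r m n c S om F Fr fc fi fh)
    (ht : s none ≠ 0 → ∀ j, tp j + (s (some j) / s none) ^ n = (s (some 0) / s none) ^ n)
    (h : Cl n c S om F Fr fc fi fh s e φ) (h' : Cl n c S om F Fr fc fi fh s e' φ') :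
    ∃ G : EV (Fin r), Op1 G ∧ (∀ x,
      (s none ≠ 0 ∧ (∀ j, s (some j) ≠ 0) ∧ e x none = e' (G x) none) ∨
      (∃ j, s (some j) = 0 ∧ e x (some (some j)) = e' (G x) (some (some j))) ∨
      (s none = 0 ∧ e x (some none) = e' (G x) (some none))) ∧
      ∀ x ∈ cone (Fin r), φ x = φ' (G x) := by
  have z : s none ≠ 0 → ∀ j, s (some j) = 0 → (s (some 0) / s none) ^ n = tp j := fun h0 j k => by
    rw [← ht h0 j, k, zero_div, zero_pow (by omega), add_zero]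
  have d : s none ≠ 0 → ∀ j, (s (some j) / s none) ^ n = (s (some 0) / s none) ^ n - tp j :=
    fun h0 j => eq_sub_of_add_eq' (ht h0 j)
  have cf : ∀ j, s none ≠ 0 → ‖(s (some j) / s none) ^ n‖ < 1 / 4 → s (some 0) ≠ 0 →
      ((m : ℝ) + 2) * ‖(s none / s (some 0)) ^ n‖ < 1 → False := fun j h0 a b k => by
    have l := far_lt h0 b k
    rw [← ht h0 j] at l
    linarith [norm_add_le (tp j) ((s (some j) / s none) ^ n), tp_le j]
  by_cases H : s none ≠ 0 ∧ (∀ j : Fin m, 1 / 5 < ‖(s (some 0) / s none) ^ n - tp j‖) ∧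
      ‖(s (some 0) / s none) ^ n‖ < m + 3
  · obtain ⟨h0, H1, H2⟩ := H
    have hj : ∀ j, s (some j) ≠ 0 := fun j k => by
      have := H1 j
      rw [z h0 j k, sub_self, norm_zero] at this
      linarith
    obtain ⟨M, G, a1, a2, a3, a4⟩ := tohub hGR hF hP h0 hj (ht h0) H1 H2 h
    obtain ⟨M', G', b1, b2, b3, b4⟩ := tohub hGR hF hP h0 hj (ht h0) H1 H2 h'
    obtain ⟨g, g1, rfl⟩ := hF.uniq _ _ _ a1 b1
    obtain ⟨u, u1, u2⟩ := same hGR a2 ((hGR.op _).2.1 _ _ g1 b2)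
    have k : ∀ x, (M * g) (G' (u x)) = M (G x) := fun x => congrArg M (u2 x)
    exact ⟨u, u1, fun x => .inl ⟨h0, hj, by rw [a3, b3, k]⟩, fun x hx => by
      rw [a4 x hx, b4 _ (u1.fut x hx), k]⟩
  rcases h with ⟨j, G, h1, h2, h3, h4, h5, h6⟩ | ⟨G, h1, h2, h3, h4, h5, h6⟩ |
    ⟨M, -, h2, h3, h4, -⟩
  · rcases h' with ⟨j', G', b1, -, b3, b4, b5, b6⟩ | ⟨G', -, b2, b3, -⟩ | ⟨M', -, b2, b3, b4, -⟩
    · obtain rfl : j = j' := tp_eq (by
        rw [d h2] at h3 b3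
        have := norm_sub_le_norm_sub_add_norm_sub (tp j) ((s (some 0) / s none) ^ n) (tp j')
        rw [norm_sub_rev] at h3
        linarith)
      obtain ⟨u, u1, u2⟩ := same hGR h1 b1
      refine ⟨u, u1, fun x => ?_, fun x hx => by rw [h6 x hx, b6 _ (u1.fut x hx), u2]⟩
      by_cases k : s (some j) = 0
      · exact .inr (.inl ⟨j, k, by rw [h5 k, b5 k, u2]⟩)
      · refine .inl ⟨h2, fun i l => k ?_, by rw [h4 k, b4 k, u2]⟩
        rw [d h2, z h2 i l] at h3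
        exact tp_eq (i := i) (j := j) (by linarith) ▸ l
    · exact (cf j h2 h3 b2 b3).elim
    · exact (H ⟨b2, b3, b4⟩).elim
  · rcases h' with ⟨j', G', -, b2, b3, -⟩ | ⟨G', b1, -, -, b4, b5, b6⟩ | ⟨M', -, b2, b3, b4, -⟩
    · exact (cf j' b2 b3 h2 h3).elim
    · obtain ⟨u, u1, u2⟩ := same hGR h1 b1
      refine ⟨u, u1, fun x => ?_, fun x hx => by rw [h6 x hx, b6 _ (u1.fut x hx), u2]⟩
      by_cases k : s none = 0
      · exact .inr (.inr ⟨k, by rw [h5 k, b5 k, u2]⟩)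
      · refine .inl ⟨k, fun i l => ?_, by rw [h4 k, b4 k, u2]⟩
        have := far_lt k h2 h3
        rw [z k i l] at this
        linarith [tp_le i]
    · exact (H ⟨b2, b3, b4⟩).elim
  · exact (H ⟨h2, h3, h4⟩).elim

end CXA

open CXA

theorem sxa (hGR : SGR) (hXU : SXU) : SXA := by
  intro r m n _ C c S om F Fi Fr fc fi fh hn hR hF hP s hs a ha e w φ e' w' φ' h h'
  obtain ⟨-, -, ht, -, hU⟩ := hXU r m n hn s hs
  obtain ⟨u1, u2, u3, u4, u5⟩ := hU c S om F hR.ax fun j => (hF.an j _ (by simp)).2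
  obtain ⟨G, g1, g2, g3⟩ := cmp hGR hn hF hP ht (scale (e := e) ha h.2) (e' := e') h'.2
  have p0 := pow_ne_zero (5 * m) ha
  have b : ∀ x o, ((a ^ (5 * m))⁻¹ • e x) o = e' (G x) o → (e x - a ^ (5 * m) • e' (G x)) o = 0 :=
    fun x o k => by
      rw [Pi.sub_apply, Pi.smul_apply, ← k, Pi.smul_apply, smul_inv_smul₀ p0, sub_self]
  have e0 : ∀ x, e x - a ^ (5 * m) • e' (G x) = 0 := fun x =>
    u1 _ (u3 _ _ _ ((u5 a ha).1 _ (h.1 x).1) (h'.1 (G x)).1)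
      ((g2 x).imp (fun k => ⟨k.1, k.2.1, b x _ k.2.2⟩)
        (Or.imp (fun ⟨j, k⟩ => ⟨j, k.1, b x _ k.2⟩) fun k => ⟨k.1, b x _ k.2⟩))
  refine ⟨G, g1, fun x => sub_eq_zero.1 (e0 x), fun x => ?_, g3⟩
  have k := u4 _ _ _ _ (a ^ (5 * m)) ((u5 a ha).2 _ _ (h.1 x).2) (h'.1 (G x)).2
  rw [e0 x] at k
  have k' := sub_eq_zero.1 (u2 _ k)
  rw [show 8 * m = 5 * m + 3 * m by ring, pow_add, mul_smul] at k'
  exact smul_right_injective _ p0 k'

end Pool.Agent.MP_fcd29e_an.H13
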